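import Pool.Agent.Helper18.UW.GoalsG

set_option autoImplicit false

namespace Pool.Agent.Helper46.UW

open Finset
open Pool.Agent.Helper43.Hw (T na va lz Play aa ac sc oo sk U Dd Sd Pn nx bb np)
open Pool.Agent.Helper18.EW
open Pool.Agent.Helper18.UW

theorem goalUG (h2 : GoalG2) (h5 : GoalG5) : GoalUG := by
  intro μ δ R K τ s E ms e P h
  have hg : ∀ i ∈ range K, Grp (ms i) R 1 τ s E (fun _ => e i) P := fun i hi =>
    h.one (mem_range.1 hi)
  have h1 : ∀ i ∈ range K, 1 ≤ ms i := fun i hi => (h.mm i (mem_range.1 hi)).2.2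
  have H2 := fun i hi => h2 (ms i) R 1 τ s E (fun _ => e i) P (h1 i hi) (hg i hi)
  have H5 := fun i hi => h5 (ms i) R 1 τ s E (fun _ => e i) P (h1 i hi) (hg i hi)
  refine ⟨⟨?_, ?_, ?_, ?_⟩, ?_, ?_, ?_, ?_, ?_, ?_, ?_, ?_⟩
  · intro z hz
    unfold uV
    exact sum_eq_zero fun i hi => (H2 i hi).1.1 z hz
  · intro z hz1 hz2
    unfold uV
    refine sum_congr rfl fun i hi => ?_
    rw [(H2 i hi).1.2.1 z hz1 hz2, sum_range_one]
  · intro z hz
    unfold uV
    refine sum_le_sum fun i hi => ?_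
    have := (H2 i hi).1.2.2.1 z hz
    omega
  · unfold uV
    rw [sum_comm]
    refine sum_congr rfl fun i hi => ?_
    rw [(H2 i hi).1.2.2.2, one_mul]
  · intro y hy1 hy2
    unfold uV uO uK
    rw [← sum_add_distrib, ← sum_add_distrib]
    exact sum_congr rfl fun i hi => (H2 i hi).2.1 y hy1 hy2
  · intro y hy1 hy2
    unfold uV uO uS uD
    rw [sum_comm, sum_mul, mul_sum, ← sum_add_distrib, ← sum_add_distrib, ← sum_add_distrib]
    exact sum_congr rfl fun i hi => (H2 i hi).2.2 y hy1 hy2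
  · intro y hy1 hy2
    unfold uO uN
    exact sum_congr rfl fun i hi => (H5 i hi).1 y hy1 hy2
  · intro y hy1 hy2
    unfold uD uN
    rw [mul_sum]
    exact sum_le_sum fun i hi => (H5 i hi).2.1 y hy1 hy2
  · intro X
    unfold uN
    calc ∑ i ∈ range K, gN (ms i) R 1 τ s (fun _ => e i) P X ≤ ∑ _i ∈ range K, 1 :=
          sum_le_sum fun i hi => (H5 i hi).2.2.1 X
      _ = K := by simp
  · intro X X' hX
    unfold uN gN
    refine sum_le_sum fun i hi => card_le_card fun j hj => ?_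
    rw [mem_filter] at hj ⊢
    exact ⟨hj.1, by omega⟩
  · intro y hy1 hy2
    unfold uS uQ
    rw [mul_sum]
    exact sum_le_sum fun i hi => (H5 i hi).2.2.2.1 y hy1 hy2
  · intro y hy1 hy2
    unfold uK uQ
    rw [sum_comm]
    exact sum_le_sum fun i hi => (H5 i hi).2.2.2.2 y hy1 hy2

end Pool.Agent.Helper46.UW
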